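import Mathlib
import Pool.Agent.V1178.TW.Bai
set_option autoImplicit false

/-!
# Time warpings which preserve bandlimitedness are affine

For every `d ≥ 1`, a continuous bijection `γ` of `ℝ^d` has the property that `f ∘ γ` has a
compactly supported Fourier transform for every bandlimited `f ∈ L²(ℝ^d)` if and only if `γ` is
affine.
-/

namespace Pool.Agent.Results.MP_1ad12f_an.AffineWarpings

open MeasureTheory FourierTransform SchwartzMap Filter
open scoped InnerProductSpace BoundedContinuousFunction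

/-- Bandlimited functions, identified with their continuous representatives: `f` is the inverse
Fourier transform of a function `g ∈ L²(ℝ^d)` which vanishes outside a ball. -/
def Bandlimited {d : ℕ} (f : EuclideanSpace ℝ (Fin d) → ℂ) : Prop :=
  ∃ g : EuclideanSpace ℝ (Fin d) → ℂ, MemLp g 2 ∧ (∃ R : ℝ, ∀ ξ, R < ‖ξ‖ → g ξ = 0) ∧
    ∀ x, f x = ∫ ξ, Complex.exp ((2 * Real.pi * ⟪ξ, x⟫_ℝ : ℝ) * Complex.I) * g ξ

/-- The tempered distribution given by the bounded function `u` has a compactly supported Fourier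
transform: for some `R` it vanishes on the Fourier transforms `𝓕 φ` of all Schwartz functions `φ`
which vanish on the closed ball with radius `R`. -/
def CompactSpectrum {d : ℕ} (u : EuclideanSpace ℝ (Fin d) → ℂ) : Prop :=
  ∃ R : ℝ, ∀ φ : 𝓢(EuclideanSpace ℝ (Fin d), ℂ), (∀ ξ, ‖ξ‖ ≤ R → φ ξ = 0) →
    ∫ x, u x * (𝓕 φ : 𝓢(EuclideanSpace ℝ (Fin d), ℂ)) x = 0

/-- `f ∘ γ` has a compactly supported Fourier transform for every bandlimited `f`. -/
def BandlimitPreserving {d : ℕ} (γ : EuclideanSpace ℝ (Fin d) → EuclideanSpace ℝ (Fin d)) : Prop :=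
  ∀ f : EuclideanSpace ℝ (Fin d) → ℂ, Bandlimited f → CompactSpectrum (f ∘ γ)

/-- `γ(x) = A x + b` with an invertible linear map `A`. -/
def IsAffine {d : ℕ} (γ : EuclideanSpace ℝ (Fin d) → EuclideanSpace ℝ (Fin d)) : Prop :=
  ∃ (A : EuclideanSpace ℝ (Fin d) ≃ₗ[ℝ] EuclideanSpace ℝ (Fin d)) (b : EuclideanSpace ℝ (Fin d)),
    ∀ x, γ x = A x + b

open Pool.Agent.V1178.TW

variable {d : ℕ}

theorem sp_of_compact {u : EuclideanSpace ℝ (Fin d) → ℂ} (h : CompactSpectrum u) : ∃ R, Sp R u := by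
  obtain ⟨R, hR⟩ := h
  refine ⟨R, fun Φ hΦ => ?_⟩
  have h1 := hR (𝓕⁻ Φ) (fun ξ hξ => by
    have h2 : (𝓕⁻ Φ : 𝓢(EuclideanSpace ℝ (Fin d), ℂ)) ξ = (𝓕 Φ : 𝓢(EuclideanSpace ℝ (Fin d), ℂ)) (-ξ) := by
      rw [SchwartzMap.fourierInv_coe, SchwartzMap.fourier_coe, Real.fourierInv_eq_fourier_neg]
    rw [h2]
    exact hΦ _ (by rwa [norm_neg]))
  rw [FourierTransform.fourier_fourierInv_eq] at h1
  exact h1

theorem affine_on_lines {γ : EuclideanSpace ℝ (Fin d) → EuclideanSpace ℝ (Fin d)} (hγ : Continuous γ)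
    (h : BandlimitPreserving γ) (x v : EuclideanSpace ℝ (Fin d)) (t : ℝ) :
    γ (x + t • v) = γ x + t • (γ (x + v) - γ x) := by
  have h1 : ∀ g : EuclideanSpace ℝ (Fin d) →ᵇ ℂ, ∃ R, Sp R fun x => fB g (γ x) := by
    intro g
    apply sp_of_compact
    apply h (fB g)
    refine ⟨(Metric.closedBall 0 1).indicator g, ?_, ⟨1, fun ξ hξ => ?_⟩, fun y => ?_⟩
    · refine MemLp.mono' (g := (Metric.closedBall 0 1).indicator fun _ => ‖g‖) ?_ ?_ ?_
      · exact memLp_indicator_const 2 Metric.isClosed_closedBall.measurableSet _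
          (Or.inr measure_closedBall_lt_top.ne)
      · exact (g.continuous.measurable.indicator Metric.isClosed_closedBall.measurableSet).aestronglyMeasurable
      · refine Eventually.of_forall fun ξ => ?_
        by_cases hξ : ξ ∈ Metric.closedBall (0 : EuclideanSpace ℝ (Fin d)) 1
        · rw [Set.indicator_of_mem hξ, Set.indicator_of_mem hξ]; exact g.norm_coe_le_norm ξ
        · rw [Set.indicator_of_notMem hξ, Set.indicator_of_notMem hξ, norm_zero]
    · rw [Set.indicator_of_notMem]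
      rw [mem_closedBall_zero_iff]
      exact not_le.mpr hξ
    · unfold fB
      rw [← integral_indicator Metric.isClosed_closedBall.measurableSet]
      refine integral_congr_ae (Eventually.of_forall fun ξ => ?_)
      by_cases hξ : ξ ∈ Metric.closedBall (0 : EuclideanSpace ℝ (Fin d)) 1
      · simp only [Set.indicator_of_mem hξ]; rfl
      · simp only [Set.indicator_of_notMem hξ, mul_zero]
  obtain ⟨n, hn⟩ := uniform hγ h1
  have key : ∀ ξ : EuclideanSpace ℝ (Fin d), ‖ξ‖ < 1 → ∃ α β : ℝ, ∀ t : ℝ,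
      ⟪ξ, γ (x + t • v)⟫_ℝ = α + β * t := by
    intro ξ hξ
    refine line_affine hγ ξ (exp_spec hγ n hn ξ hξ) ?_ x v
    have := exp_spec hγ n hn (-ξ) (by rwa [norm_neg])
    simpa only [inner_neg_left] using this
  refine ext_inner_left ℝ fun ξ => ?_
  set s : ℝ := (‖ξ‖ + 1)⁻¹ with hs
  have hs0 : 0 < s := by positivity
  obtain ⟨α, β, hαβ⟩ := key (s • ξ) (by
    rw [norm_smul, Real.norm_of_nonneg hs0.le, hs, inv_mul_lt_iff₀ (by positivity)]
    linarith)
  have e0 := hαβ 0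
  have e1 := hαβ 1
  have et := hαβ t
  simp only [zero_smul, add_zero, mul_zero] at e0
  simp only [one_smul, mul_one] at e1
  rw [real_inner_smul_left] at e0 e1 et
  rw [inner_add_right, real_inner_smul_right, inner_sub_right]
  have : s * ⟪ξ, γ (x + t • v)⟫_ℝ = s * (⟪ξ, γ x⟫_ℝ + t * (⟪ξ, γ (x + v)⟫_ℝ - ⟪ξ, γ x⟫_ℝ)) := by
    rw [et, mul_add]
    have : s * (t * (⟪ξ, γ (x + v)⟫_ℝ - ⟪ξ, γ x⟫_ℝ)) = t * (s * ⟪ξ, γ (x + v)⟫_ℝ - s * ⟪ξ, γ x⟫_ℝ) := by ring
    rw [this, e0, e1]; ring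
  exact mul_left_cancel₀ hs0.ne' this

theorem forward {γ : EuclideanSpace ℝ (Fin d) → EuclideanSpace ℝ (Fin d)} (hγ : Continuous γ)
    (hb : Function.Bijective γ) (h : BandlimitPreserving γ) : IsAffine γ := by
  have hl := affine_on_lines hγ h
  set L : EuclideanSpace ℝ (Fin d) → EuclideanSpace ℝ (Fin d) := fun x => γ x - γ 0 with hL
  have hsm : ∀ (t : ℝ) v, L (t • v) = t • L v := by
    intro t v
    have h1 := hl 0 v t
    simp only [zero_add] at h1
    simp only [hL, h1]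
    abel
  have hadd : ∀ x y, L (x + y) = L x + L y := by
    intro x y
    have h1 := hl (2 • x) (2 • y - 2 • x) (1 / 2)
    have e1 : (2 : ℕ) • x + (1 / 2 : ℝ) • ((2 : ℕ) • y - (2 : ℕ) • x) = x + y := by
      rw [← Nat.cast_smul_eq_nsmul ℝ, ← Nat.cast_smul_eq_nsmul ℝ, smul_sub, smul_smul, smul_smul]
      norm_num
      rw [two_smul]; abel
    have e2 : (2 : ℕ) • x + ((2 : ℕ) • y - (2 : ℕ) • x) = (2 : ℕ) • y := by abel
    rw [e1, e2] at h1
    have hx : γ ((2 : ℕ) • x) = 2 • L x + γ 0 := by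
      have h2 := hsm 2 x
      rw [← Nat.cast_smul_eq_nsmul ℝ, ← Nat.cast_smul_eq_nsmul ℝ]
      push_cast
      rw [← h2]; simp [hL]
    have hy : γ ((2 : ℕ) • y) = 2 • L y + γ 0 := by
      have h2 := hsm 2 y
      rw [← Nat.cast_smul_eq_nsmul ℝ, ← Nat.cast_smul_eq_nsmul ℝ]
      push_cast
      rw [← h2]; simp [hL]
    rw [hx, hy] at h1
    have h3 : L (x + y) = γ (x + y) - γ 0 := rfl
    rw [h3, h1, ← Nat.cast_smul_eq_nsmul ℝ, ← Nat.cast_smul_eq_nsmul ℝ]
    push_cast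
    module
  let LL : EuclideanSpace ℝ (Fin d) →ₗ[ℝ] EuclideanSpace ℝ (Fin d) :=
    { toFun := L, map_add' := hadd, map_smul' := fun t v => by simpa using hsm t v }
  have hbij : Function.Bijective LL := by
    constructor
    · intro x y hxy
      have : γ x - γ 0 = γ y - γ 0 := hxy
      exact hb.1 (sub_left_injective this)
    · intro y
      obtain ⟨x, hx⟩ := hb.2 (y + γ 0)
      exact ⟨x, by change γ x - γ 0 = y; rw [hx]; abel⟩
  refine ⟨LinearEquiv.ofBijective LL hbij, γ 0, fun x => ?_⟩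
  rw [LinearEquiv.ofBijective_apply]
  change γ x = (γ x - γ 0) + γ 0
  abel

theorem backward {γ : EuclideanSpace ℝ (Fin d) → EuclideanSpace ℝ (Fin d)} (h : IsAffine γ) :
    BandlimitPreserving γ := by
  obtain ⟨A, b, hA⟩ := h
  rintro f ⟨g, hg2, ⟨R, hgR⟩, hf⟩
  -- the adjoint
  set T : EuclideanSpace ℝ (Fin d) →L[ℝ] EuclideanSpace ℝ (Fin d) :=
    LinearMap.toContinuousLinearMap (A : EuclideanSpace ℝ (Fin d) →ₗ[ℝ] EuclideanSpace ℝ (Fin d)) with hT
  have hTx : ∀ x, T x = A x := fun x => rfl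
  set Ts := ContinuousLinearMap.adjoint T with hTs
  have hgi : Integrable g := by
    have h1 : IntegrableOn g (Metric.closedBall 0 R) :=
      haveI : IsFiniteMeasure (volume.restrict (Metric.closedBall (0 : EuclideanSpace ℝ (Fin d)) R)) :=
        ⟨by rw [Measure.restrict_apply_univ]; exact measure_closedBall_lt_top⟩
      (hg2.restrict _).integrable one_le_two
    have h2 := (integrable_indicator_iff Metric.isClosed_closedBall.measurableSet).mpr h1
    refine h2.congr (Eventually.of_forall fun ξ => ?_)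
    by_cases hξ : ξ ∈ Metric.closedBall (0 : EuclideanSpace ℝ (Fin d)) R
    · rw [Set.indicator_of_mem hξ]
    · rw [Set.indicator_of_notMem hξ, hgR]
      rw [mem_closedBall_zero_iff, not_le] at hξ
      exact hξ
  refine ⟨‖Ts‖ * R, fun φ hφ => ?_⟩
  have e1 : ∀ x, (f ∘ γ) x * (𝓕 φ : 𝓢(EuclideanSpace ℝ (Fin d), ℂ)) x =
      ∫ ξ, g ξ * (ex ⟪ξ, γ x⟫_ℝ * (𝓕 φ : 𝓢(EuclideanSpace ℝ (Fin d), ℂ)) x) := by
    intro x
    rw [Function.comp, hf, ← integral_mul_const]
    refine integral_congr_ae (Eventually.of_forall fun ξ => ?_)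
    simp only [ex]; ring
  have hγc : Continuous γ := by
    have : γ = fun x => T x + b := funext hA
    rw [this]; fun_prop
  simp_rw [e1]
  rw [integral_integral_swap]
  · have e2 : ∀ ξ, ∫ x, g ξ * (ex ⟪ξ, γ x⟫_ℝ * (𝓕 φ : 𝓢(EuclideanSpace ℝ (Fin d), ℂ)) x) = 0 := by
      intro ξ
      rw [integral_const_mul]
      by_cases hξ : R < ‖ξ‖
      · rw [hgR ξ hξ, zero_mul]
      · have e3 : ∀ x, ex ⟪ξ, γ x⟫_ℝ * (𝓕 φ : 𝓢(EuclideanSpace ℝ (Fin d), ℂ)) x =
            ex ⟪ξ, b⟫_ℝ * (ex ⟪Ts ξ, x⟫_ℝ * (𝓕 φ : 𝓢(EuclideanSpace ℝ (Fin d), ℂ)) x) := by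
          intro x
          rw [hA, inner_add_right, hTs, ContinuousLinearMap.adjoint_inner_left, hTx]
          unfold ex
          rw [show ((2 * Real.pi * (⟪ξ, A x⟫_ℝ + ⟪ξ, b⟫_ℝ) : ℝ) : ℂ) * Complex.I =
            ((2 * Real.pi * ⟪ξ, b⟫_ℝ : ℝ) : ℂ) * Complex.I +
            ((2 * Real.pi * ⟪ξ, A x⟫_ℝ : ℝ) : ℂ) * Complex.I by push_cast; ring, Complex.exp_add]
          ring
        simp_rw [e3]
        rw [integral_const_mul]
        have e4 : ∫ x, ex ⟪Ts ξ, x⟫_ℝ * (𝓕 φ : 𝓢(EuclideanSpace ℝ (Fin d), ℂ)) x = φ (Ts ξ) := by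
          have h1 : (𝓕⁻ (𝓕 φ) : 𝓢(EuclideanSpace ℝ (Fin d), ℂ)) (Ts ξ) = φ (Ts ξ) := by
            rw [FourierTransform.fourierInv_fourier_eq]
          rw [← h1, SchwartzMap.fourierInv_coe, Real.fourierInv_eq']
          refine integral_congr_ae (Eventually.of_forall fun x => ?_)
          simp only [smul_eq_mul, ex]
          rw [real_inner_comm]
        rw [e4, hφ _ ((Ts.le_opNorm ξ).trans (mul_le_mul_of_nonneg_left (not_lt.mp hξ)
          (norm_nonneg _)))]
        simp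
    simp_rw [e2]
    simp
  · exact pair_int hγc (𝓕 φ) hgi

/-- **Theorem.** Let `d ≥ 1` and let `γ` be a continuous bijection of `ℝ^d`. Then `f ∘ γ` has a
compactly supported Fourier transform for every bandlimited `f` if and only if `γ` is affine. -/
theorem result (d : ℕ) (_hd : 1 ≤ d) (γ : EuclideanSpace ℝ (Fin d) → EuclideanSpace ℝ (Fin d))
    (hγ : Continuous γ) (hb : Function.Bijective γ) : BandlimitPreserving γ ↔ IsAffine γ :=
  ⟨forward hγ hb, backward⟩

end Pool.Agent.Results.MP_1ad12f_an.AffineWarpings
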